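import Pool.Agent.KS6_29.RC.Main

/-!
# Highly connected binary matroids without removable circuits

For every `t` there is a finite binary matroid which is Tutte `t`-connected, all of whose circuits
and all of whose cocircuits have at least `t` elements, and in which the deletion of any circuit
destroys all circuits. So not even high connectivity and large circuits force a removable circuit.

The matroid comes from an intersecting binary code with large dual distance. Any two of its circuits
meet, so one side of a separation `(X, Y)` is independent, and since small sets contain no cocircuit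
this gives `r(X) + r(Y) ≥ r(M) + k`.
-/

set_option autoImplicit false

open scoped Matroid

namespace Pool.Agent.Results.MP_7c85f7_co.HighlyConnected

open Pool.Agent.KS6_29.RC

/-- any two elements lie in a common circuit -/
def TwoConnected {α : Type} (M : Matroid α) : Prop :=
  ∀ e ∈ M.E, ∀ f ∈ M.E, e ≠ f → ∃ C, M.IsCircuit C ∧ e ∈ C ∧ f ∈ C

/-- `M` is represented over `GF(2)` by the vectors `v e`. -/
def Binary {α : Type} (M : Matroid α) : Prop :=
  ∃ (m : ℕ) (v : α → (Fin m → ZMod 2)),
    ∀ I : Set α, M.Indep I ↔ (I ⊆ M.E ∧ LinearIndepOn (ZMod 2) v I)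

/-- For every `t` there is a 2-connected and Tutte `t`-connected finite binary matroid with all
circuits and all cocircuits of size at least `t`, such that for no circuit `D` the matroid `M ＼ D`
is 2-connected; in fact `M ＼ D` has no circuits at all, and at least `t` elements. -/
theorem result (t : ℕ) : ∃ (n : ℕ) (M : Matroid (Fin n)), M.E.Nonempty ∧ Binary M ∧
    TwoConnected M ∧ TutteConnected t M ∧
    (∀ C, M.IsCircuit C → t ≤ C.ncard) ∧ (∀ K, M.IsCocircuit K → t ≤ K.ncard) ∧
    ∀ D, M.IsCircuit D → ¬ TwoConnected (M ＼ D) ∧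
      (∀ C, ¬ (M ＼ D).IsCircuit C) ∧ t ≤ (M ＼ D).E.ncard := by
  obtain ⟨n, M, hn, hE, ⟨m, v, hv⟩, h2, hC, hK, hint, hD⟩ := exists_matroid (max t 1)
  have hno : ∀ D, M.IsCircuit D → ∀ C, ¬ (M ＼ D).IsCircuit C := by
    intro D hD' C hC'
    rw [Matroid.delete_isCircuit_iff] at hC'
    obtain ⟨e, he⟩ := hint C D hC'.1 hD'
    exact hC'.2.le_bot he
  have hne : M.E.Nonempty := ⟨⟨0, by omega⟩, by rw [hE]; trivial⟩
  refine ⟨n, M, hne, ⟨m, v, fun I => by rw [hv, hE]; simp⟩, fun e _ f _ _ => h2 e f,
    fun k hk hkt => tutte (M.E.toFinite) hK hint k hk (lt_of_lt_of_le hkt (le_max_left _ _)),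
    fun C h => (le_max_left _ _).trans (hC C h), fun K h => (le_max_left _ _).trans (hK K h),
    fun D h => ⟨fun h3 => ?_, hno D h, ?_⟩⟩
  · have h4 := hD D h
    have h5 : 1 < (M.E \ D).ncard := by omega
    obtain ⟨e, he, f, hf, hef⟩ := (Set.one_lt_ncard (Set.toFinite _)).1 h5
    obtain ⟨C, hC', -⟩ := h3 e (by simpa using he) f (by simpa using hf) hef
    exact hno D h C hC'
  · have := hD D h
    rw [Matroid.delete_ground]
    omega

end Pool.Agent.Results.MP_7c85f7_co.HighlyConnected
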